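import Pool.Agent.H484.AL.Stm

namespace Pool.Agent.H860.AL

open Finset Pool.Agent.H484.AL
open scoped Classical

/-- the smallest `l` with `X ≤ m l` -/
def lo (X m : ℕ) : ℕ := (X + m - 1) / m

theorem lo_le {X m l : ℕ} (hm : 1 ≤ m) (h : X ≤ m * l) : lo X m ≤ l := by
  rw [lo, Nat.div_le_iff_le_mul_add_pred hm]
  omega

theorem lt_lo {X m l : ℕ} (hm : 1 ≤ m) (h : m * l < X) : l < lo X m := by
  rw [lo, ← Nat.succ_le_iff, Nat.le_div_iff_mul_le hm, Nat.succ_mul, mul_comm l m]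
  omega

theorem le_mul_lo {X m : ℕ} (hm : 1 ≤ m) : X ≤ m * lo X m := by
  rw [lo]
  have h1 := Nat.div_add_mod (X + m - 1) m
  have h2 := Nat.mod_lt (X + m - 1) hm
  generalize m * ((X + m - 1) / m) = y at *
  omega

theorem mul_lo_le {X m : ℕ} (hm : 1 ≤ m) : m * lo X m ≤ X + m := by
  rw [lo]
  have h1 := Nat.mul_div_le (X + m - 1) m
  omega

/-- the length of the interval -/
theorem len_le {X m : ℕ} (hm : 1 ≤ m) :
    ((lo (2 * X) m - lo X m : ℕ) : ℝ) ≤ (X : ℝ) / m + 1 := by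
  have hm0 : (0 : ℝ) < m := by exact_mod_cast hm
  have hle : lo X m ≤ lo (2 * X) m := Nat.div_le_div_right (by omega)
  rw [Nat.cast_sub hle]
  have h1 : (X : ℝ) ≤ m * lo X m := by exact_mod_cast le_mul_lo hm
  have h2 : (m : ℝ) * lo (2 * X) m ≤ 2 * X + m := by exact_mod_cast mul_lo_le hm
  rw [div_add_one hm0.ne', le_div_iff₀ hm0]
  nlinarith

theorem prod_eq (e : ℕ) (X : Fin e → ℕ) (m : ℝ) :
    ∏ i, (3 * ((X i : ℝ) / m)) = 3 ^ e * (∏ i, (X i : ℝ)) / m ^ e := by
  rw [Finset.prod_mul_distrib, Finset.prod_div_distrib]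
  simp only [Finset.prod_const, Finset.card_univ, Fintype.card_fin]
  ring

/-- the bound for a single `m` -/
theorem single (hLCNT : S_LCNT) (e g m Y T : ℕ) (α X : Fin e → ℕ) (he : 2 ≤ e) (hg : 1 ≤ g)
    (hα : prim e g α) (hm : 1 ≤ m) (hY : ∀ i, X i < m * g → Y < m) :
    (g : ℝ) * (((Fintype.piFinset (fun _ : Fin e => Ico 1 T)).filter (fun l =>
      (∀ i, X i ≤ m * l i ∧ m * l i < 2 * X i) ∧ g ∣ ∑ i, α i * l i)).card : ℝ) ≤
      3 ^ e * (∏ i, (X i : ℝ)) * (((m : ℝ) ^ 2)⁻¹ + if Y < m then g * ((m : ℝ) ^ 2)⁻¹ else 0) := by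
  have hm0 : (0 : ℝ) < m := by exact_mod_cast hm
  have hm1 : (1 : ℝ) ≤ m := by exact_mod_cast hm
  have hg1 : (1 : ℝ) ≤ g := by exact_mod_cast hg
  have hP : (0 : ℝ) ≤ 3 ^ e * ∏ i, (X i : ℝ) := by positivity
  have hpow : 3 ^ e * (∏ i, (X i : ℝ)) / (m : ℝ) ^ e ≤
      3 ^ e * (∏ i, (X i : ℝ)) * ((m : ℝ) ^ 2)⁻¹ := by
    rw [div_eq_mul_inv]
    have : ((m : ℝ) ^ e)⁻¹ ≤ ((m : ℝ) ^ 2)⁻¹ := by
      apply inv_anti₀ (by positivity)
      exact pow_le_pow_right₀ hm1 he
    exact mul_le_mul_of_nonneg_left this hP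
  set u : Fin e → ℕ := fun i => lo (X i) m with hu
  set n : Fin e → ℕ := fun i => lo (2 * X i) m - lo (X i) m with hn
  have hnle : ∀ i, (n i : ℝ) ≤ (X i : ℝ) / m + 1 := fun i => len_le hm
  set S := (Fintype.piFinset (fun _ : Fin e => Ico 1 T)).filter (fun l =>
      (∀ i, X i ≤ m * l i ∧ m * l i < 2 * X i) ∧ g ∣ ∑ i, α i * l i) with hS
  have hsub : S ⊆ (Fintype.piFinset (fun i => Ico (u i) (u i + n i))).filter
      (fun l => g ∣ ∑ i, α i * l i) := by
    intro l hl
    rw [hS, Finset.mem_filter] at hl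
    rw [Finset.mem_filter, Fintype.mem_piFinset]
    refine ⟨fun i => ?_, hl.2.2⟩
    rw [Finset.mem_Ico]
    have h1 := lo_le hm (hl.2.1 i).1
    have h2 := lt_lo hm (hl.2.1 i).2
    refine ⟨h1, ?_⟩
    simp only [hu, hn]
    omega
  by_cases hall : ∀ i, m * g ≤ X i
  · have h1 := (hLCNT e g α u n (by omega) hg hα).2
    have h2 : (g : ℝ) * (S.card : ℝ) ≤ ∏ i, ((n i : ℝ) + g) := by
      have h3 : g * S.card ≤ ∏ i, (n i + g) :=
        (Nat.mul_le_mul_left g (Finset.card_le_card hsub)).trans h1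
      exact_mod_cast h3
    have h4 : ∏ i, ((n i : ℝ) + g) ≤ ∏ i, (3 * ((X i : ℝ) / m)) := by
      refine Finset.prod_le_prod (fun i _ => by positivity) fun i _ => ?_
      have h5 : (g : ℝ) ≤ (X i : ℝ) / m := by
        rw [le_div_iff₀ hm0]
        have := hall i
        rw [mul_comm] at this
        exact_mod_cast this
      have h6 := hnle i
      linarith
    rw [prod_eq] at h4
    have h7 : (0 : ℝ) ≤ if Y < m then g * ((m : ℝ) ^ 2)⁻¹ else 0 := by
      split_ifs
      · positivity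
      · exact le_refl _
    calc (g : ℝ) * (S.card : ℝ) ≤ 3 ^ e * (∏ i, (X i : ℝ)) * ((m : ℝ) ^ 2)⁻¹ :=
          h2.trans (h4.trans hpow)
      _ ≤ _ := mul_le_mul_of_nonneg_left (by linarith) hP
  · push Not at hall
    obtain ⟨i0, hi0⟩ := hall
    rw [if_pos (hY i0 hi0)]
    rcases S.eq_empty_or_nonempty with hemp | ⟨l, hl⟩
    · rw [hemp, Finset.card_empty, Nat.cast_zero, mul_zero]
      positivity
    · rw [hS, Finset.mem_filter, Fintype.mem_piFinset] at hl
      have h1 : (S.card : ℝ) ≤ ∏ i, (n i : ℝ) := by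
        have h3 : S.card ≤ ∏ i, n i := by
          calc S.card ≤ _ := Finset.card_le_card hsub
            _ ≤ _ := Finset.card_filter_le _ _
            _ = ∏ i, n i := by
              rw [Fintype.card_piFinset]
              refine Finset.prod_congr rfl fun i _ => ?_
              rw [Nat.card_Ico, Nat.add_sub_cancel_left]
        exact_mod_cast h3
      have h4 : ∏ i, (n i : ℝ) ≤ ∏ i, (3 * ((X i : ℝ) / m)) := by
        refine Finset.prod_le_prod (fun i _ => by positivity) fun i _ => ?_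
        have h5 : (1 : ℝ) ≤ 2 * ((X i : ℝ) / m) := by
          rw [← mul_div_assoc, le_div_iff₀ hm0, one_mul]
          have h6 := (hl.2.1 i).2
          have h7 := (Finset.mem_Ico.1 (hl.1 i)).1
          have h8 : m ≤ 2 * X i := by nlinarith
          exact_mod_cast h8
        have h6 := hnle i
        linarith
      rw [prod_eq] at h4
      have h9 := h1.trans (h4.trans hpow)
      calc (g : ℝ) * (S.card : ℝ) ≤ g * (3 ^ e * (∏ i, (X i : ℝ)) * ((m : ℝ) ^ 2)⁻¹) :=
            mul_le_mul_of_nonneg_left h9 (by positivity)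
        _ = 3 ^ e * (∏ i, (X i : ℝ)) * (g * ((m : ℝ) ^ 2)⁻¹) := by ring
        _ ≤ _ := by
          apply mul_le_mul_of_nonneg_left _ hP
          have : (0 : ℝ) ≤ ((m : ℝ) ^ 2)⁻¹ := by positivity
          linarith

theorem sum_tail (k T : ℕ) (hk : 1 ≤ k) : ∑ m ∈ Ioc k T, (((m : ℕ) : ℝ) ^ 2)⁻¹ ≤ (k : ℝ)⁻¹ := by
  rcases Nat.lt_or_ge T k with h | h
  · rw [Finset.Ioc_eq_empty (by omega), Finset.sum_empty]
    positivity
  · have h1 := sum_Ioc_inv_sq_le_sub (α := ℝ) (k := k) (n := T) (by omega) h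
    have h2 : (0 : ℝ) ≤ (T : ℝ)⁻¹ := by positivity
    linarith

theorem t_NSUM' (hLCNT : S_LCNT) : S_NSUM := by
  intro e B g M a0 J α hR j hj
  obtain ⟨he, hB, hJ, hg, hgB, hN, ha, hα⟩ := hR
  have hg1 : (1 : ℝ) ≤ g := by exact_mod_cast hg
  set X : Fin e → ℕ := fun i => B ^ (j i) with hX
  set Y : ℕ := 512 * g ^ 2 with hYdef
  have hXlow : ∀ i, 512 * g ^ 3 ≤ X i := by
    intro i
    have h1 : 3 * J ≤ j i := by
      have := Fintype.mem_piFinset.1 hj i
      exact (Finset.mem_Ico.1 this).1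
    calc 512 * g ^ 3 = (8 * g) ^ 3 := by ring
      _ ≤ (B ^ J) ^ 3 := Nat.pow_le_pow_left hgB 3
      _ = B ^ (3 * J) := by rw [← pow_mul, mul_comm]
      _ ≤ B ^ (j i) := Nat.pow_le_pow_right (by omega) h1
  have hY : ∀ (m : ℕ) (i : Fin e), X i < m * g → Y < m := by
    intro m i h
    have h1 : Y * g < m * g := by
      calc Y * g = 512 * g ^ 3 := by rw [hYdef]; ring
        _ ≤ X i := hXlow i
        _ < m * g := h
    exact Nat.lt_of_mul_lt_mul_right h1
  set T := 2 * B ^ (5 * J) with hT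
  set P : ℝ := ∏ i, (X i : ℝ) with hP
  have hP0 : 0 ≤ P := by positivity
  have key : (g : ℝ) * ∑ m ∈ Ico 2 T, (((Fintype.piFinset (fun _ : Fin e => Ico 1 T)).filter
      (fun l => (∀ i, X i ≤ m * l i ∧ m * l i < 2 * X i) ∧ g ∣ ∑ i, α i * l i)).card : ℝ) ≤
      3 ^ (e + 1) * P := by
    rw [Finset.mul_sum]
    calc _ ≤ ∑ m ∈ Ico 2 T, 3 ^ e * P * (((m : ℝ) ^ 2)⁻¹ +
          if Y < m then g * ((m : ℝ) ^ 2)⁻¹ else 0) := by
          refine Finset.sum_le_sum fun m hm => ?_
          have hm2 : 2 ≤ m := (Finset.mem_Ico.1 hm).1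
          exact single hLCNT e g m Y T α X he hg hα (by omega) (hY m)
      _ = 3 ^ e * P * (∑ m ∈ Ico 2 T, ((m : ℝ) ^ 2)⁻¹ +
          g * ∑ m ∈ (Ico 2 T).filter (fun m => Y < m), ((m : ℝ) ^ 2)⁻¹) := by
          rw [← Finset.mul_sum, Finset.sum_add_distrib, Finset.mul_sum _ _ (g : ℝ),
            Finset.sum_filter]
      _ ≤ 3 ^ e * P * (1 + 1) := by
          apply mul_le_mul_of_nonneg_left _ (by positivity)
          apply add_le_add
          · have h1 := sum_tail 1 T (le_refl _)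
            rw [Nat.cast_one, inv_one] at h1
            refine le_trans (Finset.sum_le_sum_of_subset_of_nonneg ?_ fun _ _ _ => by positivity) h1
            intro m hm
            rw [Finset.mem_Ico] at hm
            rw [Finset.mem_Ioc]
            omega
          · have hYpos : 1 ≤ Y := by
              have h3 := Nat.one_le_pow 2 g hg
              rw [hYdef]
              omega
            have h1 := sum_tail Y T hYpos
            have h2 : ∑ m ∈ (Ico 2 T).filter (fun m => Y < m), ((m : ℝ) ^ 2)⁻¹ ≤ (Y : ℝ)⁻¹ := by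
              refine le_trans (Finset.sum_le_sum_of_subset_of_nonneg ?_ fun _ _ _ => by positivity) h1
              intro m hm
              rw [Finset.mem_filter, Finset.mem_Ico] at hm
              rw [Finset.mem_Ioc]
              omega
            have hYr : (g : ℝ) ≤ Y := by
              have : g ≤ Y := by rw [hYdef]; nlinarith
              exact_mod_cast this
            have hY0 : (0 : ℝ) < Y := by exact_mod_cast hYpos
            calc (g : ℝ) * _ ≤ g * (Y : ℝ)⁻¹ := mul_le_mul_of_nonneg_left h2 (by positivity)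
              _ ≤ 1 := by
                rw [← div_eq_mul_inv, div_le_one hY0]
                exact hYr
      _ ≤ 3 ^ (e + 1) * P := by
          rw [pow_succ]
          have : 0 ≤ 3 ^ e * P := by positivity
          nlinarith
  have hPc : P = ((∏ i, B ^ (j i) : ℕ) : ℝ) := by
    rw [hP, Nat.cast_prod]
  rw [hPc] at key
  exact_mod_cast key

end Pool.Agent.H860.AL

theorem Pool.Agent.H484.AL.t_NSUM (hLCNT : Pool.Agent.H484.AL.S_LCNT) :
    Pool.Agent.H484.AL.S_NSUM := Pool.Agent.H860.AL.t_NSUM' hLCNT
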